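import Pool.Agent.helper41.CL.Spec

set_option autoImplicit false

namespace Pool.Agent.helper41.CL

open Finset

theorem NC (h1 : SD_stmt) (h2 : DC_stmt) : NC_stmt := by
  intro α _ V E hG hE hV hcov
  by_cases h0 : ∃ y ∈ V, inc E y = ∅
  · obtain ⟨y, hy, hy0⟩ := h0
    obtain ⟨C, hC, hyC⟩ := hcov y hy
    unfold cov at hC
    rw [mem_filter, mem_powersetCard] at hC
    obtain ⟨⟨hCV, hCc⟩, hCm⟩ := hC
    refine ⟨C.erase y, ?_, ?_⟩
    · intro e he
      obtain ⟨x, hxe, hxC⟩ := hCm e he
      refine ⟨x, hxe, mem_erase.mpr ⟨?_, hxC⟩⟩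
      intro hxy
      rw [hxy] at hxe
      have h3 : e ∈ inc E y := mem_filter.mpr ⟨he, hxe⟩
      rw [hy0] at h3
      exact absurd h3 (notMem_empty e)
    · rw [card_erase_of_mem hyC, hCc]
      omega
  · have hpos : ∀ y ∈ V, 1 ≤ #(inc E y) := by
      intro y hy
      rw [Nat.one_le_iff_ne_zero]
      intro h3
      exact h0 ⟨y, hy, card_eq_zero.mp h3⟩
    have hsum := h1 α V E hG
    have hp : ∃ p ∈ V, 2 ≤ #(inc E p) := by
      by_contra hcon
      have hle : ∑ x ∈ V, #(inc E x) ≤ ∑ x ∈ V, 1 := by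
        apply sum_le_sum
        intro x hx
        by_contra h3
        exact hcon ⟨x, hx, by omega⟩
      rw [sum_const, smul_eq_mul, mul_one] at hle
      omega
    obtain ⟨p, hpV, hp2⟩ := hp
    have hne : (inc E p).Nonempty := card_pos.mp (by omega)
    obtain ⟨e, he⟩ := hne
    have he' := mem_filter.mp he
    obtain ⟨heV, hec⟩ := hG e he'.1
    obtain ⟨a, hae, hap⟩ : ∃ a ∈ e, a ≠ p := exists_mem_ne (by omega) p
    have hepa : ({p, a} : Finset α) = e := by
      apply eq_of_subset_of_card_le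
      · intro x hx
        rw [mem_insert, mem_singleton] at hx
        rcases hx with rfl | rfl
        · exact he'.2
        · exact hae
      · rw [hec, card_pair (Ne.symm hap)]
    obtain ⟨C, hC, haC⟩ := hcov a (heV hae)
    unfold cov at hC
    rw [mem_filter, mem_powersetCard] at hC
    obtain ⟨⟨hCV, hCc⟩, hCm⟩ := hC
    have hdc := h2 α V E C hG hCm
    have hsplit : ∑ x ∈ V \ C, #(inc E x) + ∑ x ∈ C, #(inc E x) = 2 * #E := by
      rw [← hsum, sum_sdiff hCV]
    have hcard : #(V \ C) = #E := by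
      rw [card_sdiff_of_subset hCV]
      omega
    have hlow : ∀ W : Finset α, W ⊆ V → #W ≤ ∑ x ∈ W, #(inc E x) := by
      intro W hW
      have h3 : ∑ x ∈ W, 1 ≤ ∑ x ∈ W, #(inc E x) := sum_le_sum fun x hx => hpos x (hW hx)
      rwa [sum_const, smul_eq_mul, mul_one] at h3
    by_cases hpC : p ∈ C
    · have heC : e ⊆ C := by
        rw [← hepa]
        intro x hx
        rw [mem_insert, mem_singleton] at hx
        rcases hx with rfl | rfl
        · exact hpC
        · exact haC
      have hi : 1 ≤ #(E.filter fun e => e ⊆ C) := card_pos.mpr ⟨e, mem_filter.mpr ⟨he'.1, heC⟩⟩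
      have hS := hlow (V \ C) sdiff_subset
      omega
    · have hmem : p ∈ V \ C := mem_sdiff.mpr ⟨hpV, hpC⟩
      have hS := hlow ((V \ C).erase p) ((erase_subset _ _).trans sdiff_subset)
      have hE2 := add_sum_erase (V \ C) (fun x => #(inc E x)) hmem
      rw [card_erase_of_mem hmem] at hS
      omega

end Pool.Agent.helper41.CL
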