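import Pool.Agent.helper41.CL.SpecB

set_option autoImplicit false

namespace Pool.Agent.helper41.CL

open Finset

theorem XC : XC_stmt := by
  intro α _ V E c hne hcV x hx
  obtain ⟨C, hC⟩ := card_pos.mp (Nat.pos_of_ne_zero hne)
  unfold cov at hC
  rw [mem_filter, mem_powersetCard] at hC
  obtain ⟨⟨hCV, hCc⟩, hCm⟩ := hC
  have key : ∀ y ∈ V, y ∉ C → insert y C ∈ cov V E (c + 1) := by
    intro y hy hyC
    unfold cov
    rw [mem_filter, mem_powersetCard]
    refine ⟨⟨insert_subset hy hCV, ?_⟩, ?_⟩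
    · rw [card_insert_of_notMem hyC, hCc]
    · intro e he
      obtain ⟨z, hze, hzC⟩ := hCm e he
      exact ⟨z, hze, mem_insert_of_mem hzC⟩
  by_cases hxC : x ∈ C
  · obtain ⟨y, hyV, hyC⟩ : ∃ y ∈ V, y ∉ C := exists_mem_notMem_of_card_lt_card (by omega)
    exact ⟨insert y C, key y hyV hyC, mem_insert_of_mem hxC⟩
  · exact ⟨insert x C, key x hx hxC, mem_insert_self x C⟩

end Pool.Agent.helper41.CL
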