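import Pool.Agent.helper41.CL.SpecC

set_option autoImplicit false

namespace Pool.Agent.helper41.CL

open Finset

theorem DB73_four {β : Type} [DecidableEq β] (A B C D : β)
    (h1 : A ≠ B) (h2 : A ≠ C) (h3 : A ≠ D) (h4 : B ≠ C) (h5 : B ≠ D)
    (h6 : C ≠ D) : #({A, B, C, D} : Finset β) = 4 := by
  rw [card_insert_of_notMem, card_insert_of_notMem, card_pair h6]
  · simp only [mem_insert, mem_singleton, not_or]
    exact ⟨h4, h5⟩
  · simp only [mem_insert, mem_singleton, not_or]
    exact ⟨h1, h2, h3⟩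

/-- a second member at `a`, without `p` and `b` -/
theorem DB73_second {α : Type} [DecidableEq α] (V : Finset α) (E : Finset (Finset α)) (p a b : α)
    (hG : Gr V E) (hab : a ≠ b) (hpa : p ≠ a)
    (hp : ∀ e ∈ E, p ∈ e → e = {p, a} ∨ e = {p, b}) (ha : 2 ≤ #(inc E a))
    (habE : ({a, b} : Finset α) ∉ E) : ∃ f ∈ E, a ∈ f ∧ p ∉ f ∧ b ∉ f := by
  obtain ⟨f, hf, hne⟩ := exists_mem_ne (by omega : 1 < #(inc E a)) ({p, a} : Finset α)
  have hf' := mem_filter.mp hf
  refine ⟨f, hf'.1, hf'.2, ?_, ?_⟩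
  · intro hpf
    rcases hp f hf'.1 hpf with h | h
    · exact hne h
    · have h2 : a ∈ ({p, b} : Finset α) := by
        rw [← h]
        exact hf'.2
      rw [mem_insert, mem_singleton] at h2
      exact h2.elim (Ne.symm hpa) hab
  · intro hbf
    apply habE
    have h3 : ({a, b} : Finset α) = f := by
      apply eq_of_subset_of_card_le
      · intro x hx
        rw [mem_insert, mem_singleton] at hx
        rcases hx with rfl | rfl
        · exact hf'.2
        · exact hbf
      · rw [(hG f hf'.1).2, card_pair hab]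
    rw [h3]
    exact hf'.1

theorem DB (h1 : AZ_stmt) (h2 : SP_stmt) (h3 : WO_stmt) (h4 : EE_stmt) : DB_stmt := by
  intro α _ V E p a b q hG hV hab hpa hpb hEpa hEpb hp ha hb habE hqp hqa hqb hq
  obtain ⟨f3, hf3, haf3, hpf3, hbf3⟩ := DB73_second V E p a b hG hab hpa hp ha habE
  obtain ⟨f4, hf4, hbf4, hpf4, haf4⟩ := DB73_second V E p b a hG (Ne.symm hab) hpb
    (fun e he hpe => (hp e he hpe).symm) hb (by rw [pair_comm]; exact habE)
  have n12 : ({p, a} : Finset α) ≠ {p, b} := by
    intro h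
    have h5 : a ∈ ({p, b} : Finset α) := by
      rw [← h]
      simp
    rw [mem_insert, mem_singleton] at h5
    exact h5.elim (Ne.symm hpa) hab
  have n13 : ({p, a} : Finset α) ≠ f3 := by
    intro h
    apply hpf3
    rw [← h]
    simp
  have n14 : ({p, a} : Finset α) ≠ f4 := by
    intro h
    apply hpf4
    rw [← h]
    simp
  have n23 : ({p, b} : Finset α) ≠ f3 := by
    intro h
    apply hpf3
    rw [← h]
    simp
  have n24 : ({p, b} : Finset α) ≠ f4 := by
    intro h
    apply hpf4
    rw [← h]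
    simp
  have n34 : f3 ≠ f4 := by
    intro h
    apply haf4
    rw [← h]
    exact haf3
  have hT4 := DB73_four _ _ _ _ n12 n13 n14 n23 n24 n34
  have hT2 : #({({p, a} : Finset α), {p, b}} : Finset (Finset α)) = 2 := card_pair n12
  have hsub4 : ({({p, a} : Finset α), {p, b}, f3, f4} : Finset (Finset α)) ⊆ E := by
    intro x hx
    simp only [mem_insert, mem_singleton] at hx
    rcases hx with rfl | rfl | rfl | rfl <;> assumption
  have hsub2 : ({({p, a} : Finset α), {p, b}} : Finset (Finset α)) ⊆ E := by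
    intro x hx
    simp only [mem_insert, mem_singleton] at hx
    rcases hx with rfl | rfl <;> assumption
  have hle4 : 4 ≤ #E := by
    rw [← hT4]
    exact card_le_card hsub4
  obtain ⟨n, hn⟩ : ∃ n, #E = n + 4 := ⟨#E - 4, by omega⟩
  have hpV : p ∈ V := (hG _ hEpa).1 (by simp)
  have haV : a ∈ V := (hG _ hEpa).1 (by simp)
  have hbV : b ∈ V := (hG _ hEpb).1 (by simp)
  have hVp : #(V.erase p) = 2 * n + 3 := by
    rw [card_erase_of_mem hpV, hV, hn]
    omega
  have hVpab : #(V \ {p, a, b}) = 2 * n + 1 := by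
    have h5 : ({p, a, b} : Finset α) ⊆ V := by
      intro x hx
      simp only [mem_insert, mem_singleton] at hx
      rcases hx with rfl | rfl | rfl <;> assumption
    have h6 : #({p, a, b} : Finset α) = 3 := card_eq_three.mpr ⟨p, a, b, hpa, hpb, hab, rfl⟩
    rw [card_sdiff_of_subset h5, h6, hV, hn]
    omega
  have hE1 : #(E.filter fun e => p ∉ e) ≤ n + 2 := by
    have h5 : (E.filter fun e => p ∉ e) ⊆ E \ {({p, a} : Finset α), {p, b}} := by
      intro e he
      rw [mem_filter] at he
      rw [mem_sdiff]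
      refine ⟨he.1, ?_⟩
      intro h6
      rw [mem_insert, mem_singleton] at h6
      apply he.2
      rcases h6 with rfl | rfl <;> simp
    have h6 := card_le_card h5
    rw [card_sdiff_of_subset hsub2, hT2, hn] at h6
    omega
  have hE0 : #(E.filter fun e => p ∉ e ∧ a ∉ e ∧ b ∉ e) ≤ n := by
    have h5 : (E.filter fun e => p ∉ e ∧ a ∉ e ∧ b ∉ e) ⊆
        E \ {({p, a} : Finset α), {p, b}, f3, f4} := by
      intro e he
      rw [mem_filter] at he
      rw [mem_sdiff]
      refine ⟨he.1, ?_⟩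
      intro h6
      simp only [mem_insert, mem_singleton] at h6
      rcases h6 with rfl | rfl | rfl | rfl
      · exact he.2.1 (by simp)
      · exact he.2.1 (by simp)
      · exact he.2.2.1 haf3
      · exact he.2.2.2 hbf4
    have h6 := card_le_card h5
    rw [card_sdiff_of_subset hsub4, hT4, hn] at h6
    omega
  have hG1 : Gr (V.erase p) (E.filter fun e => p ∉ e) := by
    intro e he
    rw [mem_filter] at he
    exact ⟨subset_erase.mpr ⟨(hG e he.1).1, he.2⟩, (hG e he.1).2⟩
  have hG0 : Gr (V \ {p, a, b}) (E.filter fun e => p ∉ e ∧ a ∉ e ∧ b ∉ e) := by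
    intro e he
    rw [mem_filter] at he
    refine ⟨?_, (hG e he.1).2⟩
    intro x hx
    rw [mem_sdiff]
    refine ⟨(hG e he.1).1 hx, ?_⟩
    simp only [mem_insert, mem_singleton, not_or]
    refine ⟨?_, ?_, ?_⟩
    · intro h
      exact he.2.1 (h ▸ hx)
    · intro h
      exact he.2.2.1 (h ▸ hx)
    · intro h
      exact he.2.2.2 (h ▸ hx)
  have hq1 : 2 ≤ #(inc (E.filter fun e => p ∉ e) q) := by
    refine hq.trans (card_le_card ?_)
    intro e he
    unfold inc at he ⊢
    rw [mem_filter] at he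
    rw [mem_filter, mem_filter]
    refine ⟨⟨he.1, ?_⟩, he.2⟩
    intro hpe
    have h5 := he.2
    rcases hp e he.1 hpe with h | h
    · rw [h, mem_insert, mem_singleton] at h5
      exact h5.elim hqp hqa
    · rw [h, mem_insert, mem_singleton] at h5
      exact h5.elim hqp hqb
  have k1 := h4 α (V.erase p) (E.filter fun e => p ∉ e) q (n + 2) hG1 hq1 hE1 (by omega)
  have k2 := h3 α V E p a b n haV hbV hpa hpb hab hp
  have k3 := h1 α (V \ {p, a, b}) (E.filter fun e => p ∉ e ∧ a ∉ e ∧ b ∉ e) n hG0 hE0 (by omega)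
  have k4 := h2 α V E p (n + 1) hpV
  have e1 : #E - 2 = n + 1 + 1 := by omega
  have e2 : n + 2 - 1 = n + 1 := by omega
  rw [e1, k4, hn]
  rw [e2] at k1
  have p1 : 2 ^ (n + 4) = 16 * 2 ^ n := by ring
  have p2 : 2 ^ (n + 2) = 4 * 2 ^ n := by ring
  rw [p1]
  rw [p2] at k1
  have k5 : 2 ^ n ≤ #(cov (V.erase p) E (n + 1 + 1)) := k3.trans k2
  omega

end Pool.Agent.helper41.CL
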