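import Pool.Agent.helper41.CL.SpecC

set_option autoImplicit false

namespace Pool.Agent.helper41.CL

open Finset

theorem DX_four {β : Type} [DecidableEq β] (F : Finset β) (A B C D : β) (hA : A ∈ F) (hB : B ∈ F)
    (hC : C ∈ F) (hD : D ∈ F) (h1 : A ≠ B) (h2 : A ≠ C) (h3 : A ≠ D) (h4 : B ≠ C) (h5 : B ≠ D)
    (h6 : C ≠ D) : 4 ≤ #F := by
  have hsub : ({A, B, C, D} : Finset β) ⊆ F := by
    intro x hx
    simp only [mem_insert, mem_singleton] at hx
    rcases hx with rfl | rfl | rfl | rfl <;> assumption
  have hcard : #({A, B, C, D} : Finset β) = 4 := by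
    rw [card_insert_of_notMem, card_insert_of_notMem, card_pair h6]
    · simp only [mem_insert, mem_singleton, not_or]
      exact ⟨h4, h5⟩
    · simp only [mem_insert, mem_singleton, not_or]
      exact ⟨h1, h2, h3⟩
  rw [← hcard]
  exact card_le_card hsub

theorem DX (h1 : DC_stmt) : DX_stmt := by
  intro α _ V E p a b q u C hG hab hpa hpb hqp hqa hqb hqu hup hua hub hEpa hEpb hEab hEqu hdeg
    hdeg2 hcov hC huC
  have hdc := h1 α V E C hG hcov
  have hsum : ∑ x ∈ C, #(inc E x) ≤ #C + #(C.filter fun x => x = p ∨ x = a ∨ x = b ∨ x = q) := by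
    have h2 : ∑ x ∈ C, #(inc E x) ≤
        ∑ x ∈ C, (1 + if (x = p ∨ x = a ∨ x = b ∨ x = q) then 1 else 0) := by
      apply sum_le_sum
      intro x _
      have h3 := hdeg x
      by_cases h4 : x = p ∨ x = a ∨ x = b ∨ x = q
      · rw [if_pos h4]
        omega
      · rw [if_neg h4]
        have h5 : #(inc E x) ≠ 2 := fun h => h4 (hdeg2 x h)
        omega
    rw [sum_add_distrib, sum_const, smul_eq_mul, mul_one, ← card_filter] at h2
    exact h2
  have hmem : ∀ x y : α, ({x, y} : Finset α) ∈ E → x ∈ C → y ∈ C →
      ({x, y} : Finset α) ∈ E.filter fun e => e ⊆ C := by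
    intro x y h hx hy
    rw [mem_filter]
    refine ⟨h, ?_⟩
    intro z hz
    rw [mem_insert, mem_singleton] at hz
    rcases hz with rfl | rfl <;> assumption
  have hor : ∀ x y : α, ({x, y} : Finset α) ∈ E → x ∉ C → y ∈ C := by
    intro x y h hx
    obtain ⟨z, hz, hzC⟩ := hcov _ h
    rw [mem_insert, mem_singleton] at hz
    rcases hz with rfl | rfl
    · exact absurd hzC hx
    · exact hzC
  have hfil : ∀ Q : Finset α, (∀ x ∈ C, (x = p ∨ x = a ∨ x = b ∨ x = q) → x ∈ Q) →
      #(C.filter fun x => x = p ∨ x = a ∨ x = b ∨ x = q) ≤ #Q := fun Q hQ =>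
    card_le_card fun x hx => hQ x (mem_filter.mp hx).1 (mem_filter.mp hx).2
  have n1 : ({p, a} : Finset α) ≠ {p, b} := by
    intro h
    have h2 : a ∈ ({p, b} : Finset α) := by
      rw [← h]
      simp
    simp only [mem_insert, mem_singleton] at h2
    exact h2.elim (Ne.symm hpa) hab
  have n2 : ({p, a} : Finset α) ≠ {a, b} := by
    intro h
    have h2 : p ∈ ({a, b} : Finset α) := by
      rw [← h]
      simp
    simp only [mem_insert, mem_singleton] at h2
    exact h2.elim hpa hpb
  have n3 : ({p, b} : Finset α) ≠ {a, b} := by
    intro h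
    have h2 : p ∈ ({a, b} : Finset α) := by
      rw [← h]
      simp
    simp only [mem_insert, mem_singleton] at h2
    exact h2.elim hpa hpb
  have n4 : ∀ x y : α, q ≠ x → q ≠ y → ({x, y} : Finset α) ≠ {q, u} := by
    intro x y hx hy h
    have h2 : q ∈ ({x, y} : Finset α) := by
      rw [h]
      simp
    simp only [mem_insert, mem_singleton] at h2
    exact h2.elim hx hy
  have c4 : #({p, a, b, q} : Finset α) ≤ 4 := card_le_four
  have c3 : ∀ x y z : α, #({x, y, z} : Finset α) ≤ 3 := fun x y z => card_le_three
  have c2 : ∀ x y : α, #({x, y} : Finset α) ≤ 2 := fun x y => card_le_two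
  have two : ∀ x y : α, ({x, y} : Finset α) ∈ E → q ≠ x → q ≠ y → x ∈ C → y ∈ C → q ∈ C →
      2 ≤ #(E.filter fun e => e ⊆ C) := by
    intro x y h hx hy hxC hyC hqC
    exact one_lt_card.mpr ⟨_, hmem x y h hxC hyC, _, hmem q u hEqu hqC huC, n4 x y hx hy⟩
  have one : ∀ x y : α, ({x, y} : Finset α) ∈ E → x ∈ C → y ∈ C →
      1 ≤ #(E.filter fun e => e ⊆ C) := by
    intro x y h hxC hyC
    exact card_pos.mpr ⟨_, hmem x y h hxC hyC⟩
  by_cases hpC : p ∈ C
  · by_cases haC : a ∈ C
    · by_cases hbC : b ∈ C
      · by_cases hqC : q ∈ C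
        · have k1 := DX_four (E.filter fun e => e ⊆ C) _ _ _ _ (hmem p a hEpa hpC haC)
            (hmem p b hEpb hpC hbC) (hmem a b hEab haC hbC) (hmem q u hEqu hqC huC) n1 n2
            (n4 p a hqp hqa) n3 (n4 p b hqp hqb) (n4 a b hqa hqb)
          have k2 := hfil {p, a, b, q} (fun x _ hx => by simpa using hx)
          omega
        · have k1 : 2 < #(E.filter fun e => e ⊆ C) := two_lt_card.mpr
            ⟨_, hmem p a hEpa hpC haC, _, hmem p b hEpb hpC hbC, _, hmem a b hEab haC hbC,
              n1, n2, n3⟩
          have k2 := hfil {p, a, b} (fun x hxC hx => by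
            rcases hx with rfl | rfl | rfl | rfl
            · simp
            · simp
            · simp
            · exact absurd hxC hqC)
          have k3 := c3 p a b
          omega
      · by_cases hqC : q ∈ C
        · have k1 := two p a hEpa hqp hqa hpC haC hqC
          have k2 := hfil {p, a, q} (fun x hxC hx => by
            rcases hx with rfl | rfl | rfl | rfl
            · simp
            · simp
            · exact absurd hxC hbC
            · simp)
          have k3 := c3 p a q
          omega
        · have k1 := one p a hEpa hpC haC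
          have k2 := hfil {p, a} (fun x hxC hx => by
            rcases hx with rfl | rfl | rfl | rfl
            · simp
            · simp
            · exact absurd hxC hbC
            · exact absurd hxC hqC)
          have k3 := c2 p a
          omega
    · have hbC : b ∈ C := hor a b hEab haC
      by_cases hqC : q ∈ C
      · have k1 := two p b hEpb hqp hqb hpC hbC hqC
        have k2 := hfil {p, b, q} (fun x hxC hx => by
          rcases hx with rfl | rfl | rfl | rfl
          · simp
          · exact absurd hxC haC
          · simp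
          · simp)
        have k3 := c3 p b q
        omega
      · have k1 := one p b hEpb hpC hbC
        have k2 := hfil {p, b} (fun x hxC hx => by
          rcases hx with rfl | rfl | rfl | rfl
          · simp
          · exact absurd hxC haC
          · simp
          · exact absurd hxC hqC)
        have k3 := c2 p b
        omega
  · have haC : a ∈ C := hor p a hEpa hpC
    have hbC : b ∈ C := hor p b hEpb hpC
    by_cases hqC : q ∈ C
    · have k1 := two a b hEab hqa hqb haC hbC hqC
      have k2 := hfil {a, b, q} (fun x hxC hx => by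
        rcases hx with rfl | rfl | rfl | rfl
        · exact absurd hxC hpC
        · simp
        · simp
        · simp)
      have k3 := c3 a b q
      omega
    · have k1 := one a b hEab haC hbC
      have k2 := hfil {a, b} (fun x hxC hx => by
        rcases hx with rfl | rfl | rfl | rfl
        · exact absurd hxC hpC
        · simp
        · simp
        · exact absurd hxC hqC)
      have k3 := c2 a b
      omega

end Pool.Agent.helper41.CL
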